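import Pool.Agent.BSP.Main

set_option autoImplicit false

/-!
# Largest increasing subsets of the Brownian separable permuton

For every `p ∈ (0, 1)`, almost surely the supremum of the Hausdorff dimensions of the increasing
subsets of the support of the Brownian separable permuton of parameter `p` is `α(p)`.
-/

namespace Pool.Agent.Results.MP_c33a19_pr.LargestIncreasingSubset

open MeasureTheory ProbabilityTheory
open scoped ENNReal NNReal

/-- Let `0 < p < 1` and let `α ∈ (1/2, 1)` be the solution of the equation
`4^(-1/(2α)) π^(-1/2) Γ(1/2 - 1/(2α)) / Γ(1 - 1/(2α)) = p / (p - 1)`. Let `B` be a Brownian motion,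
`exc B` the normalised Brownian excursion obtained from the excursion of `B` which straddles time
`1`, and let the strict local minima of `exc B` have i.i.d. signs, equal to `⊕` with probability
`p` and independent of `B`. Then almost surely the supremum of the Hausdorff dimensions (Euclidean
metric) of the increasing subsets of the support of the associated permuton is `α`. -/
theorem result {p α : ℝ} (hp0 : 0 < p) (hp1 : p < 1) (hα0 : 1 / 2 < α) (hα1 : α < 1)
    (h : 1 / ((4 : ℝ) ^ (1 / (2 * α)) * √Real.pi) *
      (Real.Gamma (1 / 2 - 1 / (2 * α)) / Real.Gamma (1 - 1 / (2 * α))) = p / (p - 1))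
    {Ω : Type*} [MeasurableSpace Ω] {P : Measure Ω} {B : ℝ≥0 → Ω → ℝ} (hB : IsBrownianReal B P)
    {loc : ℕ → Ω → ℝ} {sgn : ℕ → Ω → Bool} (hs : BSP.IsSigning P p B loc sgn) :
    ∀ᵐ ω ∂P, BSP.incDim (BSP.rperm B loc sgn ω) = ENNReal.ofReal α :=
  BSP.main_result hp0 hp1 hα0 hα1 h hB hs

end Pool.Agent.Results.MP_c33a19_pr.LargestIncreasingSubset
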